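import Pool.Agent.W902.C6.Stm

set_option autoImplicit false

open Pool.Agent.H800R3 Filter

namespace Pool.Agent.W409.C6.Wei

open Pool.Agent.W902.C6

open Classical in
theorem wt_lett (A T : Finset ℝ) (x : ℝ) :
    wt (lett A T x) = (if x ∈ A then 1 else 0) + (if x⁻¹ ∈ T then 1 else 0) := by
  unfold wt lett
  by_cases h1 : x ∈ A <;> by_cases h2 : x⁻¹ ∈ T <;> simp [h1, h2]

theorem mem_posns (A T : Finset ℝ) (x : ℝ) : x ∈ posns A T ↔ x ∈ A ∨ x⁻¹ ∈ T := by
  unfold posns
  rw [Finset.mem_union, Finset.mem_image]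
  constructor
  · rintro (h | ⟨t, ht, rfl⟩)
    · exact Or.inl h
    · right
      rw [inv_inv]; exact ht
  · rintro (h | h)
    · exact Or.inl h
    · right
      exact ⟨x⁻¹, h, inv_inv x⟩

theorem nz (A T : Finset ℝ) (I : Set ℝ) : NZ (word A T I) := by
  classical
  intro x hx
  unfold word at hx
  rw [List.mem_map] at hx
  obtain ⟨r, hr, rfl⟩ := hx
  rw [Finset.mem_sort, Finset.mem_filter, mem_posns] at hr
  intro h
  unfold lett at h
  rw [Prod.mk.injEq, decide_eq_false_iff_not, decide_eq_false_iff_not] at h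
  rcases hr.1 with h1 | h1
  · exact h.1 h1
  · exact h.2 h1

open Classical in
theorem weight_word (A T : Finset ℝ) (I : Set ℝ) :
    weight (word A T I) = ∑ x ∈ posns A T, if x ∈ I then wt (lett A T x) else 0 := by
  rw [← Finset.sum_filter]
  unfold weight word
  rw [List.map_map]
  have h : ((((posns A T).filter (fun x => x ∈ I)).sort (· ≤ ·) : List ℝ) : Multiset ℝ) =
      ((posns A T).filter (fun x => x ∈ I)).val := Finset.sort_eq _ _
  rw [Finset.sum, ← h, Multiset.map_coe, Multiset.sum_coe]
  rfl

open Classical in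
theorem total (A T : Finset ℝ) : ∑ x ∈ posns A T, wt (lett A T x) = A.card + T.card := by
  simp only [wt_lett]
  rw [Finset.sum_add_distrib, ← Finset.sum_filter, ← Finset.sum_filter, Finset.sum_const,
    Finset.sum_const, smul_eq_mul, smul_eq_mul, mul_one, mul_one]
  congr 1
  · congr 1
    ext x
    rw [Finset.mem_filter, mem_posns]
    tauto
  · have h : (posns A T).filter (fun x => x⁻¹ ∈ T) = T.image (fun t => t⁻¹) := by
      ext x
      rw [Finset.mem_filter, mem_posns, Finset.mem_image]
      constructor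
      · rintro ⟨_, h⟩
        exact ⟨x⁻¹, h, inv_inv x⟩
      · rintro ⟨t, ht, rfl⟩
        rw [inv_inv]
        exact ⟨Or.inr ht, ht⟩
    rw [h, Finset.card_image_of_injective _ inv_injective]

open Classical in
theorem one_letter (A T : Finset ℝ) (y : ℝ) :
    wt (lett A T y) = ∑ x ∈ posns A T, if x = y then wt (lett A T x) else 0 := by
  rw [Finset.sum_ite_eq']
  by_cases h : y ∈ posns A T
  · rw [if_pos h]
  · rw [if_neg h, wt_lett]
    rw [mem_posns] at h
    push Not at h
    rw [if_neg h.1, if_neg h.2, add_zero]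

theorem main : S_wei := by
  classical
  intro A T
  refine ⟨nz _ _ _, nz _ _ _, nz _ _ _, ?_⟩
  rw [weight_word, weight_word, weight_word, one_letter A T 0, one_letter A T 1, ← total,
    ← Finset.sum_add_distrib, ← Finset.sum_add_distrib, ← Finset.sum_add_distrib,
    ← Finset.sum_add_distrib]
  refine Finset.sum_congr rfl fun x _ => ?_
  simp only [Set.mem_Iio, Set.mem_Ioo, Set.mem_Ioi]
  rcases lt_trichotomy x 0 with h | h | h
  · rw [if_pos h, if_neg h.ne, if_neg (by intro h'; linarith [h'.1]), if_neg (by linarith),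
      if_neg (by linarith)]
    simp
  · subst h
    rw [if_neg (lt_irrefl _), if_pos rfl, if_neg (by intro h'; linarith [h'.1]),
      if_neg (by norm_num), if_neg (by norm_num)]
    simp
  · rcases lt_trichotomy x 1 with h1 | h1 | h1
    · rw [if_neg (by linarith), if_neg h.ne', if_pos ⟨h, h1⟩, if_neg h1.ne, if_neg (by linarith)]
      simp
    · subst h1
      rw [if_neg (by linarith), if_neg (by norm_num), if_neg (by intro h'; linarith [h'.2]),
        if_pos rfl, if_neg (lt_irrefl _)]
      simp
    · rw [if_neg (by linarith), if_neg h.ne', if_neg (by intro h'; linarith [h'.2]),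
        if_neg h1.ne', if_pos h1]
      simp

end Pool.Agent.W409.C6.Wei
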